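import Mathlib
import Pool.Agent.Helper23.IM.Path
import Pool.Agent.Helper23.IM.Defs

/-!
# Piece CT : counting of the top edges
-/

namespace IM

open FreeGroup

theorem counting {A V X Ed : Type*} {L : ℕ} [NeZero L] [Fintype X] [DecidableEq X] [DecidableEq V]
    [DecidableEq Ed]
    (t : ZMod L → A × Bool) (hred : ∀ i, t (i + 1) ≠ flip (t i))
    (h : ZMod L → ℕ) (hinj : Function.Injective h)
    (hst : ∀ i j, (t i).1 = (t j).1 →
      (h (srcI t i) < h (srcI t j) ↔ h (tgtI t i) < h (tgtI t j)))
    (s : X → X) (hs : Function.Injective s) (idx : X → ZMod L)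
    (hidx : ∀ x, idx (s x) = idx x + 1)
    (pos : X → V) (hpos : ∀ x y, pos x = pos y → idx x = idx y → x = y)
    (ed : X → Ed) (esrc etgt : Ed → V) (elet : Ed → A)
    (hlet : ∀ x, elet (ed x) = (t (idx x)).1)
    (hsrc : ∀ x, esrc (ed x) = if (t (idx x)).2 then pos x else pos (s x))
    (htgt : ∀ x, etgt (ed x) = if (t (idx x)).2 then pos (s x) else pos x) :
    (Finset.univ.filter fun x => idx x = 0).card + (Finset.univ.image pos).card ≤
      (Finset.univ.image ed).card +
        ((Finset.univ.image ed).filter fun e => (Finset.univ.filter fun x => ed x = e).card = 1).card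
    := by
  classical
  have : Fintype (ZMod L) := ZMod.fintype L
  -- source and target dart
  have hSrc : ∀ x, ∃ y, idx y = srcI t (idx x) ∧ pos y = esrc (ed x) := by
    intro x
    by_cases hx : (t (idx x)).2
    · exact ⟨x, by simp [srcI, hx], by simp [hsrc, hx]⟩
    · exact ⟨s x, by simp [srcI, hx, hidx], by simp [hsrc, hx]⟩
  have hTgt : ∀ x, ∃ y, idx y = tgtI t (idx x) ∧ pos y = etgt (ed x) := by
    intro x
    by_cases hx : (t (idx x)).2
    · exact ⟨s x, by simp [tgtI, hx, hidx], by simp [htgt, hx]⟩
    · exact ⟨x, by simp [tgtI, hx], by simp [htgt, hx]⟩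
  -- same edge, same index
  have hE : ∀ x y, ed x = ed y → idx x = idx y → x = y := by
    intro x y hxy hi
    by_cases hx : (t (idx x)).2
    · have h1 := hsrc x
      have h2 := hsrc y
      rw [← hi] at h2
      rw [if_pos hx] at h1 h2
      exact hpos x y (by rw [← h1, ← h2, hxy]) hi
    · have h1 := htgt x
      have h2 := htgt y
      rw [← hi] at h2
      rw [if_neg hx] at h1 h2
      exact hpos x y (by rw [← h1, ← h2, hxy]) hi
  have hletter : ∀ x y, ed x = ed y → (t (idx x)).1 = (t (idx y)).1 := by
    intro x y hxy
    rw [← hlet x, ← hlet y, hxy]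
  -- opposite signs are impossible at the same source
  have hopp : ∀ x y, ed x = ed y → (t (idx x)).2 = true → (t (idx y)).2 = false →
      idx x = idx y + 1 → False := by
    intro x y hxy hx hy hi
    apply hred (idx y)
    rw [← hi]
    ext
    · exact hletter x y hxy
    · simp [flip, hx, hy]
  -- uniqueness of the top element
  have hT : ∀ x y, ed x = ed y → h (srcI t (idx x)) = h (srcI t (idx y)) → x = y := by
    intro x y hxy hh
    have h1 := hinj hh
    unfold srcI at h1
    rcases hx : (t (idx x)).2 with _ | _ <;> rcases hy : (t (idx y)).2 with _ | _ <;>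
      simp only [hx, hy, Bool.false_eq_true, ↓reduceIte] at h1
    · exact hE x y hxy (add_right_cancel h1)
    · exact (hopp y x hxy.symm hy hx h1.symm).elim
    · exact (hopp x y hxy hx hy h1).elim
    · exact hE x y hxy h1
  let top : X → Prop := fun x => ∀ y, ed y = ed x → h (srcI t (idx y)) ≤ h (srcI t (idx x))
  have htopdef : ∀ x, top x ↔ ∀ y, ed y = ed x → h (srcI t (idx y)) ≤ h (srcI t (idx x)) :=
    fun x => Iff.rfl
  -- top in terms of the target
  have htop' : ∀ x, (∀ y, ed y = ed x → h (tgtI t (idx y)) ≤ h (tgtI t (idx x))) → top x := by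
    intro x hx y hy
    have h1 := hx y hy
    by_contra h2
    push Not at h2
    have := (hst (idx x) (idx y) (hletter x y hy.symm)).1 h2
    omega
  -- number of top elements
  have hcardtop : (Finset.univ.filter top).card ≤ (Finset.univ.image ed).card := by
    apply Finset.card_le_card_of_injOn ed
    · intro x _
      simp
    · intro x hx y hy hxy
      simp only [Finset.coe_filter, Finset.mem_univ, true_and, Set.mem_ofPred_eq] at hx hy
      apply hT x y hxy
      have h1 := hx y hxy.symm
      have h2 := hy x hxy
      omega
  have hsurj : Function.Surjective s := Finite.surjective_of_injective hs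
  -- the vertices
  have hvert : ∀ v ∈ Finset.univ.image pos, ∃ z, pos (s z) = v ∧ top z ∧ top (s z) := by
    intro v hv
    rw [Finset.mem_image] at hv
    obtain ⟨x₁, _, hx₁⟩ := hv
    obtain ⟨x, hxm, hxmax⟩ := Finset.exists_max_image (Finset.univ.filter fun x => pos x = v)
      (fun x => h (idx x)) ⟨x₁, by simp [hx₁]⟩
    simp only [Finset.mem_filter, Finset.mem_univ, true_and] at hxm hxmax
    obtain ⟨z, rfl⟩ := hsurj x
    refine ⟨z, hxm, ?_, ?_⟩
    · by_cases hz : (t (idx z)).2
      · apply htop'
        intro y hy
        obtain ⟨y', hy1, hy2⟩ := hTgt y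
        have : pos y' = v := by
          rw [hy2, hy, htgt, if_pos hz, hxm]
        have h2 := hxmax y' this
        rw [hy1] at h2
        have h3 : tgtI t (idx z) = idx (s z) := by simp [tgtI, hz, hidx]
        rw [h3]
        exact h2
      · intro y hy
        obtain ⟨y', hy1, hy2⟩ := hSrc y
        have : pos y' = v := by
          rw [hy2, hy, hsrc, if_neg hz, hxm]
        have h2 := hxmax y' this
        rw [hy1] at h2
        have h3 : srcI t (idx z) = idx (s z) := by simp [srcI, hz, hidx]
        rw [h3]
        exact h2
    · by_cases hz : (t (idx (s z))).2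
      · intro y hy
        obtain ⟨y', hy1, hy2⟩ := hSrc y
        have : pos y' = v := by
          rw [hy2, hy, hsrc, if_pos hz, hxm]
        have h2 := hxmax y' this
        rw [hy1] at h2
        have h3 : srcI t (idx (s z)) = idx (s z) := by simp [srcI, hz]
        rw [h3]
        exact h2
      · apply htop'
        intro y hy
        obtain ⟨y', hy1, hy2⟩ := hTgt y
        have : pos y' = v := by
          rw [hy2, hy, htgt, if_neg hz, hxm]
        have h2 := hxmax y' this
        rw [hy1] at h2
        have h3 : tgtI t (idx (s z)) = idx (s z) := by simp [tgtI, hz]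
        rw [h3]
        exact h2
  have hcardpos : (Finset.univ.image pos).card ≤
      (Finset.univ.filter fun z => top z ∧ top (s z)).card := by
    refine le_trans (Finset.card_le_card ?_)
      (Finset.card_image_le (s := Finset.univ.filter fun z => top z ∧ top (s z))
        (f := fun z => pos (s z)))
    intro v hv
    obtain ⟨z, hz1, hz2, hz3⟩ := hvert v hv
    rw [Finset.mem_image]
    exact ⟨z, by simp only [Finset.mem_filter, Finset.mem_univ, true_and]; exact ⟨hz2, hz3⟩, hz1⟩
  have hsplit : (Finset.univ.filter fun z => top z ∧ top (s z)).card +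
      (Finset.univ.filter fun z => top z ∧ ¬ top (s z)).card = (Finset.univ.filter top).card := by
    rw [← Finset.card_filter_add_card_filter_not (s := Finset.univ.filter top)
      (fun z => top (s z)), Finset.filter_filter, Finset.filter_filter]
  -- extremal indices
  obtain ⟨i0, hi0m, hi0⟩ := Finset.exists_max_image
    (Finset.univ.filter fun i : ZMod L => (t i).1 = (t 0).1) (fun i => h (srcI t i))
    ⟨0, by simp⟩
  obtain ⟨i1, hi1m, hi1⟩ := Finset.exists_min_image
    (Finset.univ.filter fun i : ZMod L => (t i).1 = (t 0).1) (fun i => h (srcI t i))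
    ⟨0, by simp⟩
  simp only [Finset.mem_filter, Finset.mem_univ, true_and] at hi0m hi0 hi1m hi1
  have htop0 : ∀ x, idx x = i0 → top x := by
    intro x hx y hy
    rw [hx]
    apply hi0
    rw [hletter y x hy, hx, hi0m]
  have htop1 : ∀ x, idx x = i1 → top x → ∀ y, ed y = ed x → y = x := by
    intro x hx htx y hy
    apply hT y x hy
    have h1 := htx y hy
    have h2 := hi1 (idx y) (by rw [hletter y x hy, hx, hi1m])
    rw [hx] at h1 ⊢
    omega
  have hiter : ∀ n x, idx (s^[n] x) = idx x + n := by
    intro n
    induction n with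
    | zero => intro x; simp
    | succ n ih =>
      intro x
      rw [Function.iterate_succ', Function.comp, hidx, ih]
      push_cast
      ring
  have hc0 : (Finset.univ.filter fun x => idx x = 0).card ≤
      (Finset.univ.filter fun x => idx x = i0).card := by
    apply Finset.card_le_card_of_injOn (s^[i0.val])
    · intro x hx
      simp only [Finset.coe_filter, Finset.mem_univ, true_and, Set.mem_ofPred_eq] at hx ⊢
      rw [hiter, hx, zero_add, ZMod.natCast_zmod_val]
    · exact (hs.iterate _).injOn
  set d := (i1 - i0).val with hd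
  have hdL : d < L := ZMod.val_lt _
  have hidxd : ∀ x, idx x = i0 → idx (s^[d] x) = i1 := by
    intro x hx
    rw [hiter, hx, hd, ZMod.natCast_zmod_val]
    ring
  have hk : ∀ x, idx x = i0 → ¬ top (s^[d] x) →
      ∃ k, k < d ∧ top (s^[k] x) ∧ ¬ top (s (s^[k] x)) := by
    intro x hx hnt
    have hex : ∃ n, ¬ top (s^[n] x) := ⟨d, hnt⟩
    have hn := Nat.find_spec hex
    have hmin := fun m => Nat.find_min hex (m := m)
    have hle : Nat.find hex ≤ d := Nat.find_min' hex hnt
    have hpos' : Nat.find hex ≠ 0 := by
      intro h0
      rw [h0] at hn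
      exact hn (htop0 x hx)
    obtain ⟨k, hk⟩ := Nat.exists_eq_succ_of_ne_zero hpos'
    refine ⟨k, by omega, ?_, ?_⟩
    · have := hmin k (by omega)
      push Not at this
      exact this
    · rw [hk] at hn
      rw [Function.iterate_succ', Function.comp] at hn
      exact hn
  have hc1 : (Finset.univ.filter fun x => idx x = i0 ∧ top (s^[d] x)).card ≤
      ((Finset.univ.image ed).filter fun e =>
        (Finset.univ.filter fun x => ed x = e).card = 1).card := by
    apply Finset.card_le_card_of_injOn (fun x => ed (s^[d] x))
    · intro x hx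
      simp only [Finset.coe_filter, Finset.mem_univ, true_and, Set.mem_ofPred_eq] at hx ⊢
      refine ⟨Finset.mem_image_of_mem _ (Finset.mem_univ _), ?_⟩
      rw [Finset.card_eq_one]
      refine ⟨s^[d] x, ?_⟩
      ext y
      simp only [Finset.mem_filter, Finset.mem_univ, true_and, Finset.mem_singleton]
      constructor
      · intro hy
        exact htop1 _ (hidxd x hx.1) hx.2 y hy
      · rintro rfl
        rfl
    · intro x hx y hy hxy
      simp only [Finset.coe_filter, Finset.mem_univ, true_and, Set.mem_ofPred_eq] at hx hy
      have := htop1 _ (hidxd x hx.1) hx.2 (s^[d] y) hxy.symm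
      exact (hs.iterate d this).symm
  have hc2 : (Finset.univ.filter fun x => idx x = i0 ∧ ¬ top (s^[d] x)).card ≤
      (Finset.univ.filter fun z => top z ∧ ¬ top (s z)).card := by
    choose! k hk1 hk2 hk3 using hk
    apply Finset.card_le_card_of_injOn (fun x => s^[k x] x)
    · intro x hx
      simp only [Finset.coe_filter, Finset.mem_univ, true_and, Set.mem_ofPred_eq] at hx ⊢
      exact ⟨hk2 x hx.1 hx.2, hk3 x hx.1 hx.2⟩
    · intro x hx y hy hxy
      simp only [Finset.coe_filter, Finset.mem_univ, true_and, Set.mem_ofPred_eq] at hx hy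
      have h1 : idx (s^[k x] x) = idx (s^[k y] y) := congrArg idx hxy
      rw [hiter, hiter, hx.1, hy.1] at h1
      have h2 : ((k x : ℕ) : ZMod L) = ((k y : ℕ) : ZMod L) := add_left_cancel h1
      have h3 : k x = k y := by
        have h4 := congrArg ZMod.val h2
        rwa [ZMod.val_natCast_of_lt ((hk1 x hx.1 hx.2).trans hdL),
          ZMod.val_natCast_of_lt ((hk1 y hy.1 hy.2).trans hdL)] at h4
      simp only [h3] at hxy
      exact hs.iterate _ hxy
  have hc3 : (Finset.univ.filter fun x => idx x = i0 ∧ top (s^[d] x)).card +
      (Finset.univ.filter fun x => idx x = i0 ∧ ¬ top (s^[d] x)).card =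
      (Finset.univ.filter fun x => idx x = i0).card := by
    rw [← Finset.card_filter_add_card_filter_not (s := Finset.univ.filter fun x => idx x = i0)
      (fun x => top (s^[d] x)), Finset.filter_filter, Finset.filter_filter]
  omega

end IM
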